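import Pool.Agent.T9h20.TF.Spec

/-!
# Piece (L): the local bound

Author: helper19.
-/

set_option autoImplicit false

open MeasureTheory Set Filter Topology

namespace Pool.Agent.T9h19.TF

open Pool.Agent.T9h20.TA (mon mx)
open Pool.Agent.T9h20.TE (DD)
open Pool.Agent.T9h20.TF

theorem MM_nonneg {k q t : ℕ} [NeZero t] (b d : Fin k → ℝ) (al : Fin k → Fin q → ℕ)
    (c a : Fin q → Fin t → ℝ) (i : Fin k) (y : ℝ) : 0 ≤ MM b d al c a i y := by
  unfold MM
  refine mul_nonneg (mul_nonneg (abs_nonneg _) (Real.exp_pos _).le)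
    (Finset.prod_nonneg fun j _ => pow_nonneg ?_ _)
  unfold mx
  exact abs_nonneg _

theorem sLoc (HB : SBd) (HG : SGr) (HE : SEnv) : SLoc := by
  intro k q t m _ b d al c a D hD hal hd ha s0 p r hpr hc hb hDD
  obtain ⟨B, hB1, hB2, hB3⟩ := HE k q t b d al c a s0 p r hpr hc hb hDD
  refine ⟨B, hB1, hB2, fun y hy R hR hRB => ?_⟩
  have ht : (0 : ℝ) ≤ (t : ℝ) ^ m := by positivity
  have hre : ∀ z : ℂ, ‖z - y‖ ≤ R → |z.re - y| ≤ R := by
    intro z hz
    have h := Complex.abs_re_le_norm (z - y)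
    rw [Complex.sub_re, Complex.ofReal_re] at h
    exact h.trans hz
  by_cases hcase : ∃ x' ∈ B, |y - x'| ≤ 1 / ((m + 1) * D)
  · obtain ⟨x', hx', hx2⟩ := hcase
    have hRη : R ≤ 1 / ((m + 1) * D) := by
      have := hRB x' hx'
      linarith
    obtain ⟨i1, hi1⟩ := hb
    obtain ⟨i0, -, hi0⟩ := Finset.exists_max_image Finset.univ (fun i => MM b d al c a i y)
      ⟨i1, Finset.mem_univ i1⟩
    refine ⟨i0, 0, fun z hz => ?_⟩
    have h1 : Complex.exp (-(((0 : ℝ) : ℂ) * (z - y))) = 1 := by simp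
    rw [h1, mul_one]
    refine (HB k q t m b d al c a hal z).trans ?_
    have h2 : ∀ i, MM b d al c a i z.re ≤ MM b d al c a i0 y * 3 := by
      intro i
      refine (HG k q t m b d al c a D hal hd ha i z.re y).trans ?_
      have h3 : Real.exp ((m + 1) * D * |z.re - y|) ≤ 3 := by
        have h4 : ((m : ℝ) + 1) * D * |z.re - y| ≤ 1 := by
          have hmD : (0 : ℝ) < (m + 1) * D := by positivity
          calc ((m : ℝ) + 1) * D * |z.re - y| ≤ (m + 1) * D * (1 / ((m + 1) * D)) :=
                mul_le_mul_of_nonneg_left ((hre z hz).trans hRη) hmD.le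
            _ = 1 := by field_simp
        calc Real.exp ((m + 1) * D * |z.re - y|) ≤ Real.exp 1 := Real.exp_le_exp.2 h4
          _ ≤ 3 := by have := Real.exp_one_lt_d9; linarith
      exact mul_le_mul (hi0 i (Finset.mem_univ i)) h3 (Real.exp_pos _).le
        (MM_nonneg b d al c a i0 y)
    calc (t : ℝ) ^ m * ∑ i, MM b d al c a i z.re
        ≤ (t : ℝ) ^ m * ∑ _i : Fin k, MM b d al c a i0 y * 3 :=
          mul_le_mul_of_nonneg_left (Finset.sum_le_sum fun i _ => h2 i) ht
      _ = 3 * (k * (t : ℝ) ^ m) * MM b d al c a i0 y := by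
          rw [Finset.sum_const, Finset.card_univ, Fintype.card_fin, nsmul_eq_mul]; ring
  · push Not at hcase
    obtain ⟨i0, E, hE⟩ := hB3 y hy
    refine ⟨i0, E, fun z hz => ?_⟩
    have h0 : ∀ i, MM b d al c a i z.re ≤ MM b d al c a i0 y * Real.exp (E * (z.re - y)) := by
      intro i
      refine hE z.re (fun x' hx' => ?_) i
      have h1 := hcase x' hx'
      have h2 := hRB x' hx'
      have h3 := hre z hz
      rw [abs_sub_comm x' y]
      linarith
    have h1 : ‖Complex.exp (-((E : ℂ) * (z - y)))‖ = Real.exp (-(E * (z.re - y))) := by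
      rw [Complex.norm_exp]
      congr 1
      simp
    rw [norm_mul, h1]
    have h5 : ‖Fc b d al c a z‖ ≤
        (t : ℝ) ^ m * (k * (MM b d al c a i0 y * Real.exp (E * (z.re - y)))) := by
      refine (HB k q t m b d al c a hal z).trans (mul_le_mul_of_nonneg_left ?_ ht)
      calc ∑ i, MM b d al c a i z.re
          ≤ ∑ _i : Fin k, MM b d al c a i0 y * Real.exp (E * (z.re - y)) :=
            Finset.sum_le_sum fun i _ => h0 i
        _ = _ := by rw [Finset.sum_const, Finset.card_univ, Fintype.card_fin, nsmul_eq_mul]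
    have h6 : Real.exp (E * (z.re - y)) * Real.exp (-(E * (z.re - y))) = 1 := by
      rw [← Real.exp_add]; simp
    calc ‖Fc b d al c a z‖ * Real.exp (-(E * (z.re - y)))
        ≤ (t : ℝ) ^ m * (k * (MM b d al c a i0 y * Real.exp (E * (z.re - y)))) *
          Real.exp (-(E * (z.re - y))) := mul_le_mul_of_nonneg_right h5 (Real.exp_pos _).le
      _ = (k * (t : ℝ) ^ m) * MM b d al c a i0 y *
          (Real.exp (E * (z.re - y)) * Real.exp (-(E * (z.re - y)))) := by ring
      _ = 1 * ((k * (t : ℝ) ^ m) * MM b d al c a i0 y) := by rw [h6]; ring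
      _ ≤ 3 * ((k * (t : ℝ) ^ m) * MM b d al c a i0 y) := by
          apply mul_le_mul_of_nonneg_right (by norm_num)
          exact mul_nonneg (mul_nonneg (Nat.cast_nonneg k) ht) (MM_nonneg b d al c a i0 y)
      _ = _ := by ring


end Pool.Agent.T9h19.TF
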